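import Mathlib

/-!
Closure systems generated by rooted sets with at most one rooted set per root are average-rare.
-/

namespace Pool.Agent.Results.MP_acd7a5_co.AverageRare

open Finset

variable {V : Type*} [Fintype V] [DecidableEq V]

/-- The family `C(𝒜)` generated by a family `𝒜` of rooted sets `(A, r)` (stem `A`, root `r`): all
`F` such that `A ⊆ F` implies `r ∈ F` for every member `(A, r)` of `𝒜`. -/
def gen (𝒜 : Finset (Finset V × V)) : Finset (Finset V) :=
  univ.filter (fun F => ∀ p ∈ 𝒜, p.1 ⊆ F → p.2 ∈ F)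

/-- The states: pairs `(p, G)`, `p = (A, r)` a rooted set violated by `G`, and the only one. -/
def states (𝒜 : Finset (Finset V × V)) : Finset ((Finset V × V) × Finset V) :=
  (𝒜 ×ˢ univ).filter (fun s => s.1.1 ⊆ s.2 ∧ s.1.2 ∉ s.2 ∧
    ∀ q ∈ 𝒜, q.1 ⊆ s.2 → q.2 ∉ s.2 → q = s.1)

/-- The start states: adding the root gives a closed set. -/
def starts (𝒜 : Finset (Finset V × V)) : Finset ((Finset V × V) × Finset V) :=
  (states 𝒜).filter (fun s => insert s.1.2 s.2 ∈ gen 𝒜)

/-- The pairs `(i, G)`, `G` closed, `i ∉ G`, `G ∪ {i}` not closed. -/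
def ends (𝒜 : Finset (Finset V × V)) : Finset (V × Finset V) :=
  ((univ : Finset V) ×ˢ gen 𝒜).filter (fun s => s.1 ∉ s.2 ∧ insert s.1 s.2 ∉ gen 𝒜)

lemma starts_le_ends {𝒜 : Finset (Finset V × V)} (hroot : ∀ p ∈ 𝒜, p.2 ∉ p.1)
    (huniq : ∀ p ∈ 𝒜, ∀ q ∈ 𝒜, p.2 = q.2 → p = q) (hne : ∀ p ∈ 𝒜, p.1.Nonempty) :
    (starts 𝒜).card ≤ (ends 𝒜).card := by
  classical
  -- the chosen element of the stem
  have hch : ∀ p : Finset V × V, ∃ g : Option V, p ∈ 𝒜 → ∃ x, g = some x ∧ x ∈ p.1 := by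
    intro p
    by_cases hp : p ∈ 𝒜
    · obtain ⟨x, hx⟩ := hne p hp
      exact ⟨some x, fun _ => ⟨x, rfl, hx⟩⟩
    · exact ⟨none, fun h => absurd h hp⟩
  choose g0 hg0 using hch
  rcases 𝒜.eq_empty_or_nonempty with h0 | ⟨p0, hp0⟩
  · have : starts 𝒜 = ∅ := by
      rw [h0]; rfl
    rw [this, card_empty]; exact Nat.zero_le _
  obtain ⟨z0, -⟩ := hne p0 hp0
  obtain ⟨g, hg⟩ : ∃ g : Finset V × V → V, ∀ p ∈ 𝒜, g p ∈ p.1 := by
    refine ⟨fun p => (g0 p).getD z0, fun p hp => ?_⟩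
    obtain ⟨x, hx, hxp⟩ := hg0 p hp
    simp only [hx, Option.getD_some]
    exact hxp
  -- the map `(p, G) ↦ (g p, G \ {g p})`
  set T : ((Finset V × V) × Finset V) → V × Finset V := fun s => (g s.1, s.2.erase (g s.1)) with hT
  -- the map from states to pairs (root, set)
  set φ : ((Finset V × V) × Finset V) → V × Finset V := fun s => (s.1.2, s.2) with hφ
  have hmem : ∀ s ∈ states 𝒜, s.1 ∈ 𝒜 ∧ s.1.1 ⊆ s.2 ∧ s.1.2 ∉ s.2 ∧
      ∀ q ∈ 𝒜, q.1 ⊆ s.2 → q.2 ∉ s.2 → q = s.1 := by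
    intro s hs
    obtain ⟨h1, h2⟩ := mem_filter.1 hs
    exact ⟨(mem_product.1 h1).1, h2⟩
  have hφinj : Set.InjOn φ (states 𝒜) := by
    intro s hs s' hs' h
    have h1 := (hmem s hs).1
    have h2 := (hmem s' hs').1
    obtain ⟨h3, h4⟩ := Prod.mk.inj h
    have h5 := huniq _ h1 _ h2 h3
    exact Prod.ext h5 h4
  have hTinj : Set.InjOn T (states 𝒜) := by
    intro s hs s' hs' h
    obtain ⟨a1, a2, a3, a4⟩ := hmem s hs
    obtain ⟨b1, b2, b3, b4⟩ := hmem s' hs'
    obtain ⟨h3, h4⟩ := Prod.mk.inj h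
    have h5 : s.2 = s'.2 := by
      have e1 := insert_erase (a2 (hg s.1 a1))
      have e2 := insert_erase (b2 (hg s'.1 b1))
      rw [← e1, ← e2, h4, h3]
    refine Prod.ext ?_ h5
    exact b4 s.1 a1 (h5 ▸ a2) (h5 ▸ a3)
  -- the image
  have hTmem : ∀ s ∈ states 𝒜, T s ∈ ends 𝒜 ∪ ((states 𝒜) \ (starts 𝒜)).image φ := by
    intro s hs
    obtain ⟨a1, a2, a3, a4⟩ := hmem s hs
    have hgs := a2 (hg s.1 a1)
    have hviol : ∀ q ∈ 𝒜, q.1 ⊆ s.2.erase (g s.1) → q.2 ∉ s.2.erase (g s.1) → q.2 = g s.1 := by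
      intro q hq h1 h2
      by_contra h3
      have h4 : q.2 ∉ s.2 := fun h => h2 (mem_erase.2 ⟨h3, h⟩)
      have h5 := a4 q hq (h1.trans (erase_subset _ _)) h4
      have h6 : g s.1 ∈ s.2.erase (g s.1) := h1 (by rw [h5]; exact hg s.1 a1)
      exact notMem_erase _ _ h6
    by_cases hcl : s.2.erase (g s.1) ∈ gen 𝒜
    · refine mem_union_left _ (mem_filter.2 ⟨mem_product.2 ⟨mem_univ _, hcl⟩,
        notMem_erase _ _, ?_⟩)
      intro h
      simp only [hT] at h
      rw [insert_erase hgs] at h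
      exact a3 ((mem_filter.1 h).2 s.1 a1 a2)
    · refine mem_union_right _ ?_
      have hex : ∃ q ∈ 𝒜, q.1 ⊆ s.2.erase (g s.1) ∧ q.2 ∉ s.2.erase (g s.1) := by
        by_contra hcon
        push Not at hcon
        exact hcl (mem_filter.2 ⟨mem_univ _, hcon⟩)
      obtain ⟨q, hq, h1, h2⟩ := hex
      have h3 := hviol q hq h1 h2
      refine mem_image.2 ⟨(q, s.2.erase (g s.1)), mem_sdiff.2 ⟨?_, ?_⟩, ?_⟩
      · refine mem_filter.2 ⟨mem_product.2 ⟨hq, mem_univ _⟩, h1, h2, ?_⟩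
        intro q' hq' h4 h5
        exact huniq _ hq' _ hq ((hviol q' hq' h4 h5).trans h3.symm)
      · intro h
        have h4 := (mem_filter.1 h).2
        simp only at h4
        rw [h3, insert_erase hgs] at h4
        exact a3 ((mem_filter.1 h4).2 s.1 a1 a2)
      · simp only [hφ, hT, h3]
  have h1 : (states 𝒜).card ≤ (ends 𝒜).card + ((states 𝒜) \ (starts 𝒜)).card := by
    calc (states 𝒜).card = ((states 𝒜).image T).card := (card_image_of_injOn hTinj).symm
      _ ≤ (ends 𝒜 ∪ ((states 𝒜) \ (starts 𝒜)).image φ).card := by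
          apply card_le_card
          intro x hx
          obtain ⟨s, hs, rfl⟩ := mem_image.1 hx
          exact hTmem s hs
      _ ≤ (ends 𝒜).card + (((states 𝒜) \ (starts 𝒜)).image φ).card := card_union_le _ _
      _ ≤ _ := by
          have := card_image_le (s := (states 𝒜) \ (starts 𝒜)) (f := φ)
          omega
  have h2 : (starts 𝒜) ⊆ states 𝒜 := filter_subset _ _
  have h3 := card_sdiff_of_subset h2
  have h4 := card_le_card h2
  omega

/-- For one element `i`: the number of closed sets without `i` minus the number of closed sets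
with `i`. -/
lemma count_one {𝒜 : Finset (Finset V × V)} (i : V) :
    ((gen 𝒜).filter (fun F => i ∈ F)).card
      + ((gen 𝒜).filter (fun F => i ∉ F ∧ insert i F ∉ gen 𝒜)).card
    = ((gen 𝒜).filter (fun F => i ∉ F)).card
      + ((gen 𝒜).filter (fun F => i ∈ F ∧ F.erase i ∉ gen 𝒜)).card := by
  classical
  have h1 := card_filter_add_card_filter_not (s := (gen 𝒜).filter (fun F => i ∈ F))
    (fun F => F.erase i ∉ gen 𝒜)
  have h2 := card_filter_add_card_filter_not (s := (gen 𝒜).filter (fun F => i ∉ F))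
    (fun F => insert i F ∉ gen 𝒜)
  rw [filter_filter, filter_filter] at h1 h2
  have h3 : ((gen 𝒜).filter (fun F => i ∈ F ∧ ¬ F.erase i ∉ gen 𝒜)).card
      = ((gen 𝒜).filter (fun F => i ∉ F ∧ ¬ insert i F ∉ gen 𝒜)).card := by
    apply card_bij (fun F _ => F.erase i)
    · intro F hF
      obtain ⟨a1, a2, a3⟩ := mem_filter.1 hF
      rw [not_not] at a3
      refine mem_filter.2 ⟨a3, notMem_erase _ _, ?_⟩
      rw [not_not, insert_erase a2]
      exact a1
    · intro F hF F' hF' h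
      obtain ⟨-, a2, -⟩ := mem_filter.1 hF
      obtain ⟨-, b2, -⟩ := mem_filter.1 hF'
      rw [← insert_erase a2, ← insert_erase b2, h]
    · intro F hF
      obtain ⟨a1, a2, a3⟩ := mem_filter.1 hF
      rw [not_not] at a3
      refine ⟨insert i F, mem_filter.2 ⟨a3, mem_insert_self _ _, ?_⟩, erase_insert a2⟩
      rw [not_not, erase_insert a2]
      exact a1
  omega

/-- **Main theorem.** Let `𝒜` be a family of rooted sets `(A, r)`, `r ∉ A`, on a finite set `V` in
which every element of `V` is the root of at most one member, and such that the empty set belongs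
to the generated family `C(𝒜)`. Then `C(𝒜)` is average-rare. -/
theorem result (V : Type*) [Fintype V] [DecidableEq V] (𝒜 : Finset (Finset V × V))
    (hroot : ∀ p ∈ 𝒜, p.2 ∉ p.1) (huniq : ∀ p ∈ 𝒜, ∀ q ∈ 𝒜, p.2 = q.2 → p = q)
    (hempty : ∅ ∈ gen 𝒜) :
    2 * ∑ F ∈ gen 𝒜, F.card ≤ (gen 𝒜).card * Fintype.card V := by
  classical
  have hne : ∀ p ∈ 𝒜, p.1.Nonempty := by
    intro p hp
    rw [nonempty_iff_ne_empty]
    intro h
    have := (mem_filter.1 hempty).2 p hp (by rw [h])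
    exact absurd this (notMem_empty _)
  have hmain := starts_le_ends hroot huniq hne
  -- double counting
  have hsum1 : ∑ F ∈ gen 𝒜, F.card = ∑ i : V, ((gen 𝒜).filter (fun F => i ∈ F)).card := by
    simp only [card_eq_sum_ones, sum_filter]
    rw [sum_comm]
    refine sum_congr rfl fun F _ => ?_
    rw [← sum_filter]
    congr 1
    ext i; simp
  have hsum2 : ∑ F ∈ gen 𝒜, (Fintype.card V - F.card)
      = ∑ i : V, ((gen 𝒜).filter (fun F => i ∉ F)).card := by
    have : ∀ F ∈ gen 𝒜, Fintype.card V - F.card = (univ.filter (fun i => i ∉ F)).card := by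
      intro F _
      rw [← card_compl]
      congr 1
      ext i; simp
    rw [sum_congr rfl this]
    simp only [card_eq_sum_ones, sum_filter]
    rw [sum_comm]
  have hends : (ends 𝒜).card
      = ∑ i : V, ((gen 𝒜).filter (fun F => i ∉ F ∧ insert i F ∉ gen 𝒜)).card := by
    unfold ends
    rw [card_eq_sum_ones, sum_filter, sum_product]
    refine sum_congr rfl fun i _ => ?_
    rw [card_eq_sum_ones, sum_filter]
  have hstarts : ∑ i : V, ((gen 𝒜).filter (fun F => i ∈ F ∧ F.erase i ∉ gen 𝒜)).card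
      ≤ (starts 𝒜).card := by
    have h1 : ∑ i : V, ((gen 𝒜).filter (fun F => i ∈ F ∧ F.erase i ∉ gen 𝒜)).card
        = (((univ : Finset V) ×ˢ gen 𝒜).filter (fun s => s.1 ∈ s.2 ∧ s.2.erase s.1 ∉ gen 𝒜)).card := by
      rw [card_eq_sum_ones, sum_filter, sum_product]
      refine sum_congr rfl fun i _ => ?_
      rw [card_eq_sum_ones, sum_filter]
    rw [h1]
    -- inject into the start states
    have h2 : ∀ s ∈ ((univ : Finset V) ×ˢ gen 𝒜).filter
        (fun s => s.1 ∈ s.2 ∧ s.2.erase s.1 ∉ gen 𝒜),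
        ∃ t ∈ starts 𝒜, t.1.2 = s.1 ∧ t.2 = s.2.erase s.1 := by
      rintro ⟨r, F⟩ hs
      obtain ⟨h3, h4, h5⟩ := mem_filter.1 hs
      have h3 := (mem_product.1 h3).2
      simp only at h3 h4 h5
      have hex : ∃ q ∈ 𝒜, q.1 ⊆ F.erase r ∧ q.2 ∉ F.erase r := by
        by_contra hcon
        push Not at hcon
        exact h5 (mem_filter.2 ⟨mem_univ _, hcon⟩)
      have hr : ∀ q ∈ 𝒜, q.1 ⊆ F.erase r → q.2 ∉ F.erase r → q.2 = r := by
        intro q hq h6 h7
        have h8 := (mem_filter.1 h3).2 q hq (h6.trans (erase_subset _ _))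
        by_contra h9
        exact h7 (mem_erase.2 ⟨h9, h8⟩)
      obtain ⟨q, hq, h6, h7⟩ := hex
      have h8 := hr q hq h6 h7
      refine ⟨(q, F.erase r), mem_filter.2 ⟨mem_filter.2 ⟨mem_product.2 ⟨hq, mem_univ _⟩,
        h6, h7, ?_⟩, ?_⟩, h8, rfl⟩
      · intro q' hq' h9 h10
        exact huniq _ hq' _ hq ((hr q' hq' h9 h10).trans h8.symm)
      · simp only
        rw [h8, insert_erase h4]
        exact h3
    have h3 : (((univ : Finset V) ×ˢ gen 𝒜).filter
        (fun s => s.1 ∈ s.2 ∧ s.2.erase s.1 ∉ gen 𝒜)).card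
        ≤ ((starts 𝒜).image (fun t => (t.1.2, insert t.1.2 t.2))).card := by
      apply card_le_card
      rintro ⟨r, F⟩ hs
      obtain ⟨t, ht, h4, h5⟩ := h2 _ hs
      have h6 := (mem_filter.1 hs).2.1
      refine mem_image.2 ⟨t, ht, ?_⟩
      simp only at h4 h5 h6
      rw [h4, h5, insert_erase h6]
    exact h3.trans card_image_le
  have hcount : ∑ i : V, ((gen 𝒜).filter (fun F => i ∈ F)).card
      + ∑ i : V, ((gen 𝒜).filter (fun F => i ∉ F ∧ insert i F ∉ gen 𝒜)).card
    = ∑ i : V, ((gen 𝒜).filter (fun F => i ∉ F)).card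
      + ∑ i : V, ((gen 𝒜).filter (fun F => i ∈ F ∧ F.erase i ∉ gen 𝒜)).card := by
    rw [← sum_add_distrib, ← sum_add_distrib]
    exact sum_congr rfl fun i _ => count_one i
  have htot : ∑ F ∈ gen 𝒜, F.card + ∑ F ∈ gen 𝒜, (Fintype.card V - F.card)
      = (gen 𝒜).card * Fintype.card V := by
    rw [← sum_add_distrib, ← smul_eq_mul, ← sum_const]
    refine sum_congr rfl fun F _ => ?_
    have := card_le_univ F
    omega
  omega

end Pool.Agent.Results.MP_acd7a5_co.AverageRare
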